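import Pool.Agent.Work.MP_6f78fb_rk.Interface

/-! Block PSI: the injection `Psi`. -/

set_option autoImplicit false

open scoped BigOperators
open Classical

noncomputable section

namespace Pool.RookLC.helper51

variable {Ω K : Type}

/-- restriction to a level set -/
def res (S : FS Ω K) (inv : Ω → ℤ) (c : ℤ) (t : ℤ × ℤ) (g : Ω → ℂ) : Ω → ℂ :=
  fun ω => if inv ω = c ∧ S.Tot ω = t then g ω else 0

theorem op_res [Fintype Ω] (S : FS Ω K) (hF : Stmt_FOPS) (inv : Ω → ℤ)
    (hinv : ∀ ω, ∀ κ ∈ S.comps ω, inv (S.fl κ ω) = inv ω) (c : ℤ) (t v : ℤ × ℤ) (hv : v ≠ 0)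
    (g : Ω → ℂ) : S.Op v (res S inv c t g) = res S inv c (t - 2 • v) (S.Op v g) := by
  obtain ⟨_, _, _, _, h5, _⟩ := hF Ω K S
  funext ω
  show ∑ κ ∈ (S.comps ω).filter (fun κ => S.ch κ ω = -v), res S inv c t g (S.fl κ ω) =
    if inv ω = c ∧ S.Tot ω = t - 2 • v then
      ∑ κ ∈ (S.comps ω).filter (fun κ => S.ch κ ω = -v), g (S.fl κ ω) else 0
  have key : ∀ κ ∈ (S.comps ω).filter (fun κ => S.ch κ ω = -v),
      res S inv c t g (S.fl κ ω) =
        if inv ω = c ∧ S.Tot ω = t - 2 • v then g (S.fl κ ω) else 0 := by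
    intro κ hκ
    rw [Finset.mem_filter] at hκ
    have h1 := (h5 v ω κ hv hκ.1 hκ.2).1
    unfold res
    rw [hinv ω κ hκ.1, h1]
    have h2 : (S.Tot ω + 2 • v = t) ↔ (S.Tot ω = t - 2 • v) := eq_sub_iff_add_eq.symm
    simp only [h2]
  rw [Finset.sum_congr rfl key]
  split_ifs
  · rfl
  · exact Finset.sum_const_zero

theorem sg_res [Fintype Ω] (S : FS Ω K) (hF : Stmt_FOPS) (inv : Ω → ℤ)
    (hsw : ∀ ω, inv (S.sw ω) = inv ω) (c : ℤ) (t : ℤ × ℤ)
    (g : Ω → ℂ) : S.sg (res S inv c t g) = res S inv c (-t) (S.sg g) := by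
  obtain ⟨_, _, _, _, _, h6, _⟩ := hF Ω K S
  funext ω
  show res S inv c t g (S.sw ω) = if inv ω = c ∧ S.Tot ω = -t then g (S.sw ω) else 0
  unfold res
  rw [hsw, h6]
  have h2 : (-S.Tot ω = t) ↔ (S.Tot ω = -t) := neg_eq_iff_eq_neg
  simp only [h2]

theorem stmt_PSI (hF : Stmt_FOPS) (hC : Stmt_CHAIN) (hP : Stmt_PAIR) : Stmt_PSI := by
  intro Ω K _ S h7 inv W hinv hsw f hf hPsi
  have hres : ∀ c t ω, res S inv c t f ω ≠ 0 → S.Tot ω = t := by
    intro c t ω h
    unfold res at h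
    split_ifs at h with h1
    · exact h1.2
    · exact absurd rfl h
  have e1 : ∀ c u, S.Op (1, 0) (res S inv c (2, u) f) = res S inv c (0, u) (S.Op (1, 0) f) := by
    intro c u
    rw [op_res S hF inv hinv c (2, u) (1, 0) (by decide) f]
    congr 1
    ext <;> simp
  have e2 : ∀ c u, S.Op (0, -1) (S.Op (1, 1) (res S inv c (2, u) f)) =
      res S inv c (0, u) (S.Op (0, -1) (S.Op (1, 1) f)) := by
    intro c u
    rw [op_res S hF inv hinv c (2, u) (1, 1) (by decide) f,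
      op_res S hF inv hinv c _ (0, -1) (by decide) _]
    congr 1
    ext <;> simp
  have e3 : ∀ c u, S.Op (-1, -1) (S.sg (res S inv c (2, u) f)) =
      res S inv c (0, 2 - u) (S.Op (-1, -1) (S.sg f)) := by
    intro c u
    rw [sg_res S hF inv hsw, op_res S hF inv hinv c _ (-1, -1) (by decide) _]
    congr 1
    ext
    · simp
    · show -u - (2 : ℕ) • (-1 : ℤ) = 2 - u
      rw [nsmul_eq_mul]
      push_cast
      ring
  -- the case of a pair
  have hB : ∀ c u, 2 ≤ u → u ≤ W c → 2 ∣ (u - W c) →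
      res S inv c (2, u) f = 0 ∧ res S inv c (2, 2 - u) f = 0 := by
    intro c u hu2 huw hpar
    refine hP Ω K S h7 u _ _ (hres c _) (hres c _) ?_ ?_
    · rw [e1, e3]
      funext ω
      have hω := congrFun hPsi ω
      show (if inv ω = c ∧ S.Tot ω = (0, u) then S.Op (1, 0) f ω else 0) -
        (if inv ω = c ∧ S.Tot ω = (0, 2 - (2 - u)) then S.Op (-1, -1) (S.sg f) ω else 0) = 0
      rw [show (2 : ℤ) - (2 - u) = u by ring]
      split_ifs with h
      · obtain ⟨hc, hT⟩ := h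
        have hω' : (if (S.Tot ω).1 = 0 ∧ |(S.Tot ω).2| ≤ W (inv ω) ∧
            2 ∣ ((S.Tot ω).2 - W (inv ω)) then
            S.Op (1, 0) f ω +
            (if (S.Tot ω).2 = 1 ∨ (S.Tot ω).2 = - W (inv ω) then S.Op (0, -1) (S.Op (1, 1) f) ω
              else if 2 ≤ (S.Tot ω).2 then - S.Op (-1, -1) (S.sg f) ω
              else S.Op (-1, -1) (S.sg f) ω)
            else 0) = 0 := hω
        rw [hc, hT] at hω'
        simp only at hω'
        rw [if_pos ⟨trivial, by rw [abs_of_nonneg (by omega)]; exact huw, hpar⟩,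
          if_neg (by omega), if_pos hu2] at hω'
        rw [← hω']
        ring
      · ring
    · rw [e1, e3]
      funext ω
      have hω := congrFun hPsi ω
      show (if inv ω = c ∧ S.Tot ω = (0, 2 - u) then S.Op (1, 0) f ω else 0) +
        (if inv ω = c ∧ S.Tot ω = (0, 2 - u) then S.Op (-1, -1) (S.sg f) ω else 0) = 0
      split_ifs with h
      · obtain ⟨hc, hT⟩ := h
        have hω' : (if (S.Tot ω).1 = 0 ∧ |(S.Tot ω).2| ≤ W (inv ω) ∧
            2 ∣ ((S.Tot ω).2 - W (inv ω)) then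
            S.Op (1, 0) f ω +
            (if (S.Tot ω).2 = 1 ∨ (S.Tot ω).2 = - W (inv ω) then S.Op (0, -1) (S.Op (1, 1) f) ω
              else if 2 ≤ (S.Tot ω).2 then - S.Op (-1, -1) (S.sg f) ω
              else S.Op (-1, -1) (S.sg f) ω)
            else 0) = 0 := hω
        rw [hc, hT] at hω'
        simp only at hω'
        rw [if_pos ⟨trivial, by rw [abs_le]; constructor <;> omega, by omega⟩,
          if_neg (by omega), if_neg (by omega)] at hω'
        exact hω'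
      · ring
  by_contra hne
  obtain ⟨ω₀, hω₀⟩ := Function.ne_iff.1 hne
  obtain ⟨hT1, hT2, hT3⟩ := hf ω₀ hω₀
  have hfin : ∀ u, (S.Tot ω₀).2 = u → res S inv (inv ω₀) (2, u) f = 0 → False := by
    intro u hu h
    have h1 := congrFun h ω₀
    have h2 : S.Tot ω₀ = (2, u) := Prod.ext hT1 hu
    have h3 : res S inv (inv ω₀) (2, u) f ω₀ = f ω₀ := by
      unfold res
      rw [if_pos ⟨rfl, h2⟩]
    rw [h3] at h1
    exact hω₀ h1
  set c := inv ω₀ with hc
  obtain ⟨u, hu⟩ : ∃ u, (S.Tot ω₀).2 = u := ⟨_, rfl⟩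
  rw [hu] at hT2 hT3
  rw [abs_le] at hT2
  by_cases hA : u = 1 ∨ u = - W c
  · refine hfin u hu (hC Ω K S h7 u (by omega) _ (hres c _) ?_)
    rw [e1, e2]
    funext ω
    have hω := congrFun hPsi ω
    show (if inv ω = c ∧ S.Tot ω = (0, u) then S.Op (1, 0) f ω else 0) +
      (if inv ω = c ∧ S.Tot ω = (0, u) then S.Op (0, -1) (S.Op (1, 1) f) ω else 0) = 0
    split_ifs with h
    · obtain ⟨hc', hT⟩ := h
      have hω' : (if (S.Tot ω).1 = 0 ∧ |(S.Tot ω).2| ≤ W (inv ω) ∧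
          2 ∣ ((S.Tot ω).2 - W (inv ω)) then
          S.Op (1, 0) f ω +
          (if (S.Tot ω).2 = 1 ∨ (S.Tot ω).2 = - W (inv ω) then S.Op (0, -1) (S.Op (1, 1) f) ω
            else if 2 ≤ (S.Tot ω).2 then - S.Op (-1, -1) (S.sg f) ω
            else S.Op (-1, -1) (S.sg f) ω)
          else 0) = 0 := hω
      rw [hc', hT] at hω'
      simp only at hω'
      rw [if_pos ⟨trivial, by rw [abs_le]; exact hT2, hT3⟩, if_pos hA] at hω'
      exact hω'
    · ring
  · by_cases hu2 : 2 ≤ u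
    · exact hfin u hu (hB c u hu2 (by omega) hT3).1
    · have h := (hB c (2 - u) (by omega) (by omega) (by omega)).2
      rw [show (2 : ℤ) - (2 - u) = u by ring] at h
      exact hfin u hu h

end Pool.RookLC.helper51

end
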